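import Pool.Agent.W560.HP.Stm

/-!
# The function fields of two generic zeros are isomorphic
-/

set_option autoImplicit false

open MvPolynomial

namespace Pool.Agent.W976.HP
open W560.HP

lemma ratioField_map {k P L σ : Type} [Field k] [Field L] [Algebra k L] [Field P] [Algebra k P]
    (x : σ → L) (z : σ → P) (φ : L →ₐ[k] P) (h : ∀ s, φ (x s) = z s) :
    (ratioField k x).map φ = ratioField k z := by
  unfold ratioField
  rw [IntermediateField.adjoin_map]
  congr 1
  ext w
  constructor
  · rintro ⟨_, ⟨i, j, rfl⟩, rfl⟩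
    exact ⟨i, j, by rw [map_div₀, h, h]⟩
  · rintro ⟨i, j, rfl⟩
    exact ⟨x i / x j, ⟨i, j, rfl⟩, by rw [map_div₀, h, h]⟩

theorem iso : S_ISO := by
  intro k Q Q' σ _ _ _ _ _ F y y' h h'
  set I : Ideal (MvPolynomial σ k) := RingHom.ker (aeval y : MvPolynomial σ k →ₐ[k] Q) with hI
  have : I.IsPrime := RingHom.ker_isPrime _
  have hmem : ∀ G, G ∈ I ↔ F ∣ G := fun G => by rw [hI, RingHom.mem_ker]; exact h G
  have key : ∀ (P : Type) [Field P] [Algebra k P] (z : σ → P), IsGenericZero F z →
      Nonempty (ratioField k (fun s => algebraMap (MvPolynomial σ k ⧸ I)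
        (FractionRing (MvPolynomial σ k ⧸ I)) (Ideal.Quotient.mk I (X s))) ≃ₐ[k]
          ratioField k z) := by
    intro P _ _ z hz
    have H : ∀ a ∈ I, aeval z a = 0 := fun a ha => (hz a).2 ((hmem a).1 ha)
    have hinj : Function.Injective (Ideal.Quotient.liftₐ I (aeval z) H) := by
      rw [injective_iff_map_eq_zero]
      intro a
      obtain ⟨a, rfl⟩ := Ideal.Quotient.mk_surjective a
      intro ha
      have ha' : aeval z a = 0 := ha
      exact Ideal.Quotient.eq_zero_iff_mem.2 ((hmem a).2 ((hz a).1 ha'))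
    let φ : FractionRing (MvPolynomial σ k ⧸ I) →ₐ[k] P := IsFractionRing.liftAlgHom hinj
    have hφ : ∀ s, φ (algebraMap (MvPolynomial σ k ⧸ I)
        (FractionRing (MvPolynomial σ k ⧸ I)) (Ideal.Quotient.mk I (X s))) = z s := by
      intro s
      show IsFractionRing.liftAlgHom hinj _ = _
      rw [IsFractionRing.liftAlgHom_apply, IsFractionRing.lift_algebraMap]
      have e : aeval z (X s : MvPolynomial σ k) = z s := aeval_X z s
      exact e
    have hm := ratioField_map _ z φ hφ
    exact ⟨(IntermediateField.equivMap _ φ).trans (IntermediateField.equivOfEq hm)⟩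
  obtain ⟨e⟩ := key Q y h
  obtain ⟨e'⟩ := key Q' y' h'
  exact ⟨e.symm.trans e'⟩

end Pool.Agent.W976.HP
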