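import Pool.Agent.W560.HP.Stm

/-!
# Existence of a non-degenerate solution of the contact system
-/

set_option autoImplicit false

open Finset Polynomial

namespace Pool.Agent.W976.HP
open W560.HP
open W560.Sep (dt dt_map)

section Map

variable {A B : Type*} [CommRing A] [CommRing B]

lemma g_map (φ : A →+* B) (m : ℕ) (r : ℕ → A) (j : ℕ) :
    (g m r j).map φ = g m (fun j => φ (r j)) j := by
  unfold g
  simp

lemma h_map (φ : A →+* B) (m : ℕ) (r τ : ℕ → A) (j : ℕ) :
    (h m r τ j).map φ = h m (fun j => φ (r j)) (fun j => φ (τ j)) j := by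
  unfold h
  split_ifs <;> simp

lemma g_coeff (φ : A →+* B) (m : ℕ) (r : ℕ → A) (j l : ℕ) :
    φ ((g m r j).coeff l) = (g m (fun j => φ (r j)) j).coeff l := by
  rw [← g_map, coeff_map]

lemma h_coeff (φ : A →+* B) (m : ℕ) (r τ : ℕ → A) (j l : ℕ) :
    φ ((h m r τ j).coeff l) = (h m (fun j => φ (r j)) (fun j => φ (τ j)) j).coeff l := by
  rw [← h_map, coeff_map]

lemma lev_map {m q : ℕ} {σ : ℕ → ℕ} {r τ : ℕ → A} (H : Lev m q σ r τ) (φ : A →+* B)
    (hφ : Function.Injective φ) : Lev m q σ (fun i => φ (r i)) (fun i => φ (τ i)) where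
  r0 := fun j hj => by rw [H.r0 j hj, map_zero]
  t0 := fun j hj => by rw [H.t0 j hj, map_zero]
  p1 := by
    intro l hl
    have := congrArg φ (H.p1 l hl)
    rw [map_sum, map_zero] at this
    rw [← this]
    refine Finset.sum_congr rfl fun i _ => ?_
    rw [map_mul, g_coeff]
  p2 := by
    intro e
    apply H.p2
    apply hφ
    rw [dt_map, map_zero, ← e]
    simp only [g_coeff]
  p3 := by
    intro e
    apply H.p3
    apply hφ
    rw [dt_map, map_zero, ← e]
    simp only [h_coeff]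
  p4 := by
    intro i hi e
    exact H.p4 i hi (hφ (by rw [e, map_zero]))

end Map

/-- From level two to all levels. -/
lemma lev_ind (h1 : S_STEP) (k : Type) [Field k] [CharZero k] (m : ℕ) (σ : ℕ → ℕ)
    (hinj : ∀ p ≤ m, ∀ q ≤ m, σ p = σ q → p = q)
    (hadj : ∀ q, 2 ≤ q → q < m → ∀ i ≤ q, σ i ≠ σ (q + 1) + 1)
    (hb : ∃ r τ : ℕ → k, Lev m 2 σ r τ) (q : ℕ) (h2 : 2 ≤ q) (hq : q ≤ m) :
    ∃ (K : Type) (_ : Field K) (_ : k →+* K) (r τ : ℕ → K), Lev m q σ r τ := by
  induction q, h2 using Nat.le_induction with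
  | base =>
    obtain ⟨r, τ, H⟩ := hb
    exact ⟨k, inferInstance, RingHom.id k, r, τ, H⟩
  | succ q hq2 ih =>
    obtain ⟨K, iK, f, r, τ, H⟩ := ih (by omega)
    have : CharZero K := charZero_of_injective_ringHom f.injective
    obtain ⟨r', τ', H'⟩ := h1 K m q σ r τ hq2 (by omega)
      (fun i hi j hj => hinj i (by omega) j (by omega)) (hadj q hq2 (by omega)) H
    exact ⟨FractionRing K[X], inferInstance, (algebraMap K[X] (FractionRing K[X])).comp
      (C.comp f), _, _, lev_map H' (algebraMap K[X] (FractionRing K[X]))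
        (IsFractionRing.injective K[X] (FractionRing K[X]))⟩

theorem lev (h1 : S_STEP) (h2 : S_BASE3) (h3 : S_BASE22) : S_LEV := by
  intro k _ _ m i hm hi
  have fin : ∀ σ : ℕ → ℕ, (∀ p ≤ m, ∀ q ≤ m, σ p = σ q → p = q) →
      (∀ p ≤ m, σ p ≤ m + 1 ∧ σ p ≠ i) →
      (∃ (K : Type) (_ : Field K) (_ : k →+* K) (r τ : ℕ → K), Lev m m σ r τ) →
      ∃ (K : Type) (_ : Field K) (_ : Algebra k K) (σ : ℕ → ℕ) (r τ : ℕ → K),
      (∀ p ≤ m, ∀ q ≤ m, σ p = σ q → p = q) ∧ (∀ p ≤ m, σ p ≤ m + 1 ∧ σ p ≠ i) ∧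
      Lev m m σ r τ := by
    intro σ a1 a2 a3
    obtain ⟨K, iK, f, r, τ, H⟩ := a3
    exact ⟨K, iK, f.toAlgebra, σ, r, τ, a1, a2, H⟩
  by_cases hbig : i + 3 ≤ m + 1
  · set σ : ℕ → ℕ := fun p => if p < m + 1 - i then i + 1 + p else p - (m + 1 - i) with hσ
    have a1 : ∀ p ≤ m, ∀ q ≤ m, σ p = σ q → p = q := by
      intro p hp q hq e
      simp only [hσ] at e
      split_ifs at e <;> omega
    have a2 : ∀ p ≤ m, σ p ≤ m + 1 ∧ σ p ≠ i := by
      intro p hp
      simp only [hσ]
      split_ifs <;> omega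
    refine fin σ a1 a2 (lev_ind h1 k m σ a1 ?_ ?_ m (by omega) le_rfl)
    · intro q hq hqm j hj
      simp only [hσ]
      split_ifs <;> omega
    · refine h2 k m (i + 1) σ (by omega) ?_ ?_ ?_
      · simp only [hσ]
        rw [if_pos (by omega)]
      · simp only [hσ]
        rw [if_pos (by omega)]
      · simp only [hσ]
        rw [if_pos (by omega)]
  · by_cases hbig2 : 3 ≤ i
    · set σ : ℕ → ℕ := fun p => if p < i then p else p + 1 with hσ
      have a1 : ∀ p ≤ m, ∀ q ≤ m, σ p = σ q → p = q := by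
        intro p hp q hq e
        simp only [hσ] at e
        split_ifs at e <;> omega
      have a2 : ∀ p ≤ m, σ p ≤ m + 1 ∧ σ p ≠ i := by
        intro p hp
        simp only [hσ]
        split_ifs <;> omega
      refine fin σ a1 a2 (lev_ind h1 k m σ a1 ?_ ?_ m (by omega) le_rfl)
      · intro q hq hqm j hj
        simp only [hσ]
        split_ifs <;> omega
      · refine h2 k m 0 σ (by omega) ?_ ?_ ?_
        · simp only [hσ]
          rw [if_pos (by omega)]
        · simp only [hσ]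
          rw [if_pos (by omega)]
        · simp only [hσ]
          rw [if_pos (by omega)]
    · have hm3 : m = 3 := by omega
      have hi2 : i = 2 := by omega
      subst hm3 hi2
      obtain ⟨r, τ, H⟩ := h3 k (fun p => if p < 2 then p else p + 1) rfl rfl rfl rfl
      refine fin (fun p => if p < 2 then p else p + 1) ?_ ?_
        ⟨k, inferInstance, RingHom.id k, r, τ, H⟩
      · intro p hp q hq e
        split_ifs at e <;> omega
      · intro p hp
        split_ifs <;> omega

end Pool.Agent.W976.HP
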